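import Pool.Agent.helper93.FR.Spec

/-!
# Row Kn: the entries outside the unknown ones are determined by the sampled elements
-/

set_option autoImplicit false

namespace Pool.Agent.helper98.FR

open Matrix BigOperators Pool.Agent.helper93.FR

/-- The isometry of the copy `κ0` (of type `b`). -/
def Jm {r k n : ℕ} {ℓ : Fin k → Matrix (Fin r) (Fin r) ℂ} (τ : TypSys (Fin k) r ℓ)
    (κ α : Fin n → Fin r) (κ0 : Fin r) (b : Fin τ.m) : Matrix (Fin n) (Fin (τ.w b)) ℂ :=
  fun p y => if κ p = κ0 ∧ (α p : ℕ) = (y : ℕ) then 1 else 0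

section
variable {r k n : ℕ} {ℓ : Fin k → Matrix (Fin r) (Fin r) ℂ} {τ : TypSys (Fin k) r ℓ}
  {N : Fin r → Fin r → Fin r → ℕ} {o : Fin r} {st : Fin r → Fin r} {γ : Fin k → Fin r}
  {a κ : Fin n → Fin r} {β : Fin n → Fin τ.m} {α : Fin n → Fin r}
  {X : Fin r → Matrix (Fin n) (Fin n) ℂ} {D : Matrix (Fin n) (Fin n) ℂ}

/-- The position with a given `α` in a copy. -/
theorem posn (hA : Adapt τ γ n a κ β α X) (q0 : Fin n) (b : Fin τ.m) (hb : β q0 = b)
    (y : Fin (τ.w b)) : ∃ p, κ p = κ q0 ∧ (α p : ℕ) = (y : ℕ) ∧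
      ∀ p', κ p' = κ q0 ∧ (α p' : ℕ) = (y : ℕ) → p' = p := by
  subst hb
  have hy : (y : ℕ) < r := lt_of_lt_of_le y.2 (τ.hw _)
  obtain ⟨p, hp1, hp2⟩ := hA.surj q0 ⟨(y : ℕ), hy⟩ y.2
  refine ⟨p, hp1, by rw [hp2], ?_⟩
  rintro p' ⟨h1, h2⟩
  apply hA.inj p' p (h1.trans hp1.symm)
  apply Fin.ext
  rw [h2, hp2]

theorem sum_J (hA : Adapt τ γ n a κ β α X) (q0 : Fin n) (b : Fin τ.m) (hb : β q0 = b)
    (y : Fin (τ.w b)) (f : Fin n → ℂ) (p : Fin n) (hp : κ p = κ q0) (hp' : (α p : ℕ) = (y : ℕ)) :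
    ∑ s, f s * Jm τ κ α (κ q0) b s y = f p := by
  obtain ⟨p1, h1, h2, h3⟩ := posn hA q0 b hb y
  have e : p = p1 := h3 p ⟨hp, hp'⟩
  subst e
  rw [Finset.sum_eq_single p]
  · simp [Jm, h1, h2]
  · intro s _ hs
    have : ¬ (κ s = κ q0 ∧ (α s : ℕ) = (y : ℕ)) := fun h => hs (h3 s h)
    simp [Jm, this]
  · simp

theorem J_int (hA : Adapt τ γ n a κ β α X) (q0 : Fin n) (b : Fin τ.m) (hb : β q0 = b) :
    SInt (τ.σ b) (fun j => X (γ j)) (Jm τ κ α (κ q0) b) := by
  intro j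
  constructor
  · ext p y
    obtain ⟨s, h1, h2, h3⟩ := posn hA q0 b hb y
    rw [Matrix.mul_apply, Matrix.mul_apply, sum_J hA q0 b hb y (fun s => X (γ j) p s) s h1 h2,
      hA.form]
    by_cases hp : κ p = κ q0
    · have hβ : β p = b := (hA.κβ p q0 hp).trans hb
      have hlt : (α p : ℕ) < τ.w b := hβ ▸ hA.αlt p
      have hs : β s = b := (hA.κβ s q0 h1).trans hb
      rw [if_pos (hp.trans h1.symm), hs]
      rw [Finset.sum_eq_single (⟨(α p : ℕ), hlt⟩ : Fin (τ.w b))]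
      · rw [TypSys.e, dif_pos ⟨hlt, by rw [h2]; exact y.2⟩]
        simp [Jm, hp, h2]
      · intro z _ hz
        have : ¬ ((α p : ℕ) = (z : ℕ)) := fun h => hz (Fin.ext h.symm)
        simp [Jm, this]
      · simp
    · rw [if_neg (fun h => hp (h.trans h1))]
      apply Finset.sum_eq_zero
      intro z _
      simp [Jm, hp]
  · ext p y
    obtain ⟨s, h1, h2, h3⟩ := posn hA q0 b hb y
    rw [Matrix.mul_apply, Matrix.mul_apply, sum_J hA q0 b hb y (fun s => (X (γ j))ᴴ p s) s h1 h2,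
      Matrix.conjTranspose_apply, hA.form]
    by_cases hp : κ p = κ q0
    · have hβ : β p = b := (hA.κβ p q0 hp).trans hb
      have hlt : (α p : ℕ) < τ.w b := hβ ▸ hA.αlt p
      rw [if_pos (h1.trans hp.symm), hβ]
      rw [Finset.sum_eq_single (⟨(α p : ℕ), hlt⟩ : Fin (τ.w b))]
      · rw [TypSys.e, dif_pos ⟨by rw [h2]; exact y.2, hlt⟩]
        simp [Jm, hp, h2, Matrix.conjTranspose_apply]
      · intro z _ hz
        have : ¬ ((α p : ℕ) = (z : ℕ)) := fun h => hz (Fin.ext h.symm)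
        simp [Jm, this]
      · simp
    · rw [if_neg (fun h => hp (h.symm.trans h1)), star_zero]
      apply Finset.sum_eq_zero
      intro z _
      simp [Jm, hp]

theorem SInt_comp {K l m q : Type*} [Fintype l] [Fintype m] [Fintype q]
    {x : K → Matrix l l ℂ} {y : K → Matrix m m ℂ} {z : K → Matrix q q ℂ}
    {g : Matrix m l ℂ} {h : Matrix q m ℂ} (hg : SInt x y g) (hh : SInt y z h) :
    SInt x z (h * g) := by
  intro j
  constructor
  · rw [Matrix.mul_assoc, (hg j).1, ← Matrix.mul_assoc, (hh j).1, Matrix.mul_assoc]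
  · rw [Matrix.mul_assoc, (hg j).2, ← Matrix.mul_assoc, (hh j).2, Matrix.mul_assoc]

theorem SInt_adj {K l m : Type*} [Fintype l] [Fintype m]
    {x : K → Matrix l l ℂ} {y : K → Matrix m m ℂ} {g : Matrix m l ℂ} (hg : SInt x y g) :
    SInt y x gᴴ := by
  intro j
  constructor
  · have := congrArg Matrix.conjTranspose (hg j).2
    rw [Matrix.conjTranspose_mul, Matrix.conjTranspose_mul, Matrix.conjTranspose_conjTranspose,
      Matrix.conjTranspose_conjTranspose] at this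
    exact this.symm
  · have := congrArg Matrix.conjTranspose (hg j).1
    rw [Matrix.conjTranspose_mul, Matrix.conjTranspose_mul] at this
    exact this.symm

/-- The structure of the intertwiners from the type `b` to `H`. -/
theorem str (hA : Adapt τ γ n a κ β α X) (b : Fin τ.m) (Y : Matrix (Fin n) (Fin (τ.w b)) ℂ)
    (hY : SInt (τ.σ b) (fun j => X (γ j)) Y) (p : Fin n) :
    (β p ≠ b → ∀ z, Y p z = 0) ∧
    (β p = b → ∃ c : ℂ, ∀ s, κ s = κ p → ∀ z, Y s z = if (α s : ℕ) = (z : ℕ) then c else 0) := by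
  constructor
  · intro hb z
    have h1 : SInt (τ.σ b) (τ.σ (β p)) ((Jm τ κ α (κ p) (β p))ᴴ * Y) :=
      SInt_comp hY (SInt_adj (J_int hA p (β p) rfl))
    have h2 := τ.ineq b (β p) (Ne.symm hb) _ h1
    have h3 := congrFun (congrFun h2 ⟨(α p : ℕ), hA.αlt p⟩) z
    rw [Matrix.mul_apply] at h3
    rw [Matrix.zero_apply] at h3
    have h4 := sum_J hA p (β p) rfl ⟨(α p : ℕ), hA.αlt p⟩ (fun s => Y s z) p rfl rfl
    rw [← h4]
    refine Eq.trans (Finset.sum_congr rfl ?_) h3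
    intro s _
    rw [Matrix.conjTranspose_apply, mul_comm]
    congr 1
    simp only [Jm]
    split_ifs <;> simp
  · intro hb
    have h1 : SInt (τ.σ b) (τ.σ b) ((Jm τ κ α (κ p) b)ᴴ * Y) :=
      SInt_comp hY (SInt_adj (J_int hA p b hb))
    obtain ⟨c, hc⟩ := (τ.irr b).2 _ h1
    refine ⟨c, fun s hs z => ?_⟩
    have hβ : β s = b := (hA.κβ s p hs).trans hb
    have hlt : (α s : ℕ) < τ.w b := hβ ▸ hA.αlt s
    have h3 := congrFun (congrFun hc ⟨(α s : ℕ), hlt⟩) z
    rw [Matrix.mul_apply] at h3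
    have h4 := sum_J hA p b hb ⟨(α s : ℕ), hlt⟩ (fun t => Y t z) s hs rfl
    rw [← h4]
    have h5 : ∑ t, Y t z * Jm τ κ α (κ p) b t ⟨(α s : ℕ), hlt⟩ =
        ∑ t, (Jm τ κ α (κ p) b)ᴴ ⟨(α s : ℕ), hlt⟩ t * Y t z := by
      apply Finset.sum_congr rfl
      intro t _
      rw [Matrix.conjTranspose_apply, mul_comm]
      congr 1
      simp only [Jm]
      split_ifs <;> simp
    rw [h5, h3, Matrix.smul_apply, Matrix.one_apply, smul_eq_mul]
    by_cases h : (α s : ℕ) = (z : ℕ)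
    · have : (⟨(α s : ℕ), hlt⟩ : Fin (τ.w b)) = z := Fin.ext h
      rw [if_pos this, if_pos h, mul_one]
    · have : ¬ (⟨(α s : ℕ), hlt⟩ : Fin (τ.w b)) = z := fun h' => h (congrArg Fin.val h')
      rw [if_neg this, if_neg h, mul_zero]

/-- The matrix with the columns `X m e_t`. -/
def Tt (X : Fin r → Matrix (Fin n) (Fin n) ℂ) (t : Fin n) : Matrix (Fin n) (Fin r) ℂ :=
  fun p m => X m p t

theorem Tt_int (hF : IsFusion N o st) (hX : Flat N o st n a X D) (t : Fin n) :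
    SInt (fun i => Lm N i) X (Tt X t) := by
  have key : ∀ i, Tt X t * Lm N i = X i * Tt X t := by
    intro i
    ext p j
    have h1 := congrFun (congrFun (hX.mul i j) p) t
    rw [Matrix.mul_apply] at h1
    rw [Matrix.mul_apply, Matrix.mul_apply]
    simp only [Tt, Lm]
    rw [h1, Matrix.sum_apply]
    apply Finset.sum_congr rfl
    intro m _
    rw [Matrix.smul_apply, smul_eq_mul, mul_comm]
  intro i
  refine ⟨key i, ?_⟩
  have := key (st i)
  rw [Lm_star hF, hX.star] at this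
  exact this

theorem Tt_inj (hF : IsFusion N o st) (hX : Flat N o st n a X D) {w : ℕ}
    (V : Matrix (Fin r) (Fin w) ℂ) (hV : ∀ t, Tt X t * V = 0) : V = 0 := by
  ext m0 z
  have h0 : ∑ m, V m z • X m = 0 := by
    ext p t
    have := congrFun (congrFun (hV t) p) z
    rw [Matrix.mul_apply, Matrix.zero_apply] at this
    rw [Matrix.sum_apply, Matrix.zero_apply]
    refine Eq.trans (Finset.sum_congr rfl ?_) this
    intro m _
    rw [Matrix.smul_apply, smul_eq_mul, mul_comm]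
    rfl
  have h1 : ((∑ m, V m z • X m) * X o * X (st m0) * D).trace = V m0 z := by
    rw [Matrix.sum_mul, Matrix.sum_mul, Matrix.sum_mul, Matrix.trace_sum]
    rw [Finset.sum_eq_single m0]
    · rw [Matrix.smul_mul, Matrix.smul_mul, Matrix.smul_mul, Matrix.trace_smul, ← hX.tr,
        hF.one_right]
      simp
    · intro m _ hm
      rw [Matrix.smul_mul, Matrix.smul_mul, Matrix.smul_mul, Matrix.trace_smul, ← hX.tr,
        hF.one_right]
      simp [hm]
    · simp
  rw [h0] at h1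
  simpa using h1.symm

/-- The matrix of the entries at the reference positions. -/
def Mx {w : ℕ} (X : Fin r → Matrix (Fin n) (Fin n) ℂ) (ref : Fin n → Fin n) (pos : Fin w → Fin n)
    (i : Fin r) : Matrix (Fin w) (Fin w) ℂ :=
  fun y z => X i (ref (pos y)) (ref (pos z))

theorem main (hF : IsFusion N o st) (hL : ∀ j, Lm N (γ j) = ℓ j) (hX : Flat N o st n a X D)
    (hA : Adapt τ γ n a κ β α X) {ref : Fin n → Fin n} {T : Finset (Fin r × Fin r)}
    (hD : DecodeOK κ ref T X) (hR : RefOK κ β α ref) (i : Fin r) (q : Fin n)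
    (hT : ∀ q', β q' = β q → (κ q', i) ∉ T)
    (pos : Fin (τ.w (β q)) → Fin n) (hpos : ∀ y, κ (pos y) = κ q ∧ (α (pos y) : ℕ) = (y : ℕ))
    (G : Matrix (Fin r) (Fin (τ.w (β q))) ℂ) (hG : SInt (τ.σ (β q)) ℓ G) :
    Lm N i * G = G * Mx X ref pos i := by
  have hrefeq : ∀ s t : Fin n, β s = β t → (α s : ℕ) = (α t : ℕ) → ref s = ref t := by
    intro s t h1 h2
    apply hA.inj _ _ (hR.rκ s t h1)
    rw [hR.rα, hR.rα]
    exact Fin.ext h2
  have hβpos : ∀ y, β (pos y) = β q := fun y => hA.κβ _ _ (hpos y).1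
  rw [← sub_eq_zero]
  apply Tt_inj hF hX
  intro t
  rw [Matrix.mul_sub, sub_eq_zero, ← Matrix.mul_assoc, (Tt_int hF hX t i).1, Matrix.mul_assoc,
    ← Matrix.mul_assoc (Tt X t)]
  have hY : SInt (τ.σ (β q)) (fun j => X (γ j)) (Tt X t * G) := by
    apply SInt_comp hG
    intro j
    rw [← hL j]
    exact Tt_int hF hX t (γ j)
  generalize Tt X t * G = Y at hY
  ext p z
  rw [Matrix.mul_apply, Matrix.mul_apply]
  by_cases hp : β p = β q
  · obtain ⟨c, hc⟩ := (str hA (β q) Y hY p).2 hp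
    obtain ⟨s, hs1, hs2, hs3⟩ := posn hA p (β q) hp z
    have hlt : (α p : ℕ) < τ.w (β q) := hp ▸ hA.αlt p
    rw [Finset.sum_eq_single s, Finset.sum_eq_single (⟨(α p : ℕ), hlt⟩ : Fin (τ.w (β q)))]
    · have hβs : β s = β q := (hA.κβ s p hs1).trans hp
      have ep : (α p : ℕ) = (α (pos ⟨(α p : ℕ), hlt⟩) : ℕ) := (hpos ⟨(α p : ℕ), hlt⟩).2.symm
      have ez : (α s : ℕ) = (α (pos z) : ℕ) := hs2.trans (hpos z).2.symm
      simp only [Mx]
      rw [hD i p s (hT s hβs), if_pos hs1.symm, hc s hs1 z, if_pos hs2, hc p rfl, if_pos rfl,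
        hrefeq p (pos ⟨(α p : ℕ), hlt⟩) (hp.trans (hβpos _).symm) ep,
        hrefeq s (pos z) (hβs.trans (hβpos _).symm) ez, mul_comm]
    · intro y _ hy
      rw [hc p rfl, if_neg (fun h => hy (Fin.ext h.symm)), zero_mul]
    · simp
    · intro s' _ hs'
      by_cases hβ : β s' = β q
      · rw [hD i p s' (hT s' hβ)]
        by_cases hκ : κ p = κ s'
        · rw [hc s' hκ.symm z, if_neg (fun h => hs' (hs3 s' ⟨hκ.symm, h⟩)), mul_zero]
        · rw [if_neg hκ, zero_mul]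
      · rw [(str hA (β q) Y hY s').1 hβ, mul_zero]
    · simp
  · rw [Finset.sum_eq_zero, Finset.sum_eq_zero]
    · intro y _
      rw [(str hA (β q) Y hY p).1 hp, zero_mul]
    · intro s _
      by_cases hβ : β s = β q
      · rw [hD i p s (hT s hβ), if_neg, zero_mul]
        intro hκ
        exact hp ((hA.κβ p s hκ).trans hβ)
      · rw [(str hA (β q) Y hY s).1 hβ, mul_zero]

end

/-- Row Kn. -/
theorem Kn : Kn_stmt := by
  intro r k N N' o st hF hF' n γ ℓ τ hL hL' a κ β α ref T X X' D D' hX hA hD hX' hA' hD' hR i q hT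
    p hp
  have hex : ∀ y : Fin (τ.w (β q)), ∃ s, κ s = κ q ∧ (α s : ℕ) = (y : ℕ) := by
    intro y
    obtain ⟨s, h1, h2, _⟩ := posn hA q (β q) rfl y
    exact ⟨s, h1, h2⟩
  choose pos hpos using hex
  have hrefeq : ∀ s t : Fin n, β s = β t → (α s : ℕ) = (α t : ℕ) → ref s = ref t := by
    intro s t h1 h2
    apply hA.inj _ _ (hR.rκ s t h1)
    rw [hR.rα, hR.rα]
    exact Fin.ext h2
  have hβpos : ∀ y, β (pos y) = β q := fun y => hA.κβ _ _ (hpos y).1
  have rowo : ∀ (M : Fin r → Fin r → Fin r → ℕ) (_ : IsFusion M o st)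
      (G : Matrix (Fin r) (Fin (τ.w (β q))) ℂ) (z : Fin (τ.w (β q))),
      (Lm M i * G) o z = G (st i) z := by
    intro M hM G z
    rw [Matrix.mul_apply, Finset.sum_eq_single (st i)]
    · simp [Lm, hM.dual]
    · intro m _ hm
      simp [Lm, hM.dual, hm]
    · simp
  have hxx : ∀ y0 z : Fin (τ.w (β q)),
      X i (ref (pos y0)) (ref (pos z)) = X' i (ref (pos y0)) (ref (pos z)) := by
    intro y0 z
    have hG : SInt (τ.σ (β q)) ℓ ((Tt X (pos y0))ᴴ * Jm τ κ α (κ q) (β q)) := by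
      apply SInt_comp (J_int hA q (β q) rfl)
      intro j
      rw [← hL j]
      exact SInt_adj (Tt_int hF hX (pos y0)) (γ j)
    have h1 := main hF hL hX hA hD hR i q hT pos hpos _ hG
    have h2 := main hF' hL' hX' hA' hD' hR i q hT pos hpos _ hG
    have h3 := congrFun (congrFun h1 o) z
    have h4 := congrFun (congrFun h2 o) z
    rw [rowo N hF] at h3
    rw [rowo N' hF'] at h4
    rw [h3] at h4
    have hrow : ∀ y, ((Tt X (pos y0))ᴴ * Jm τ κ α (κ q) (β q)) o y = if y0 = y then 1 else 0 := by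
      intro y
      rw [Matrix.mul_apply]
      rw [sum_J hA q (β q) rfl y (fun s => (Tt X (pos y0))ᴴ o s) (pos y) (hpos y).1 (hpos y).2]
      rw [Matrix.conjTranspose_apply]
      simp only [Tt]
      rw [hX.one, Matrix.one_apply]
      by_cases h : y0 = y
      · subst h; simp
      · have : pos y ≠ pos y0 := by
          intro he
          apply h
          apply Fin.ext
          rw [← (hpos y0).2, ← (hpos y).2, he]
        simp [h, this]
    have expand : ∀ x : Matrix (Fin (τ.w (β q))) (Fin (τ.w (β q))) ℂ,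
        (((Tt X (pos y0))ᴴ * Jm τ κ α (κ q) (β q)) * x) o z = x y0 z := by
      intro x
      rw [Matrix.mul_apply, Finset.sum_eq_single y0]
      · rw [hrow, if_pos rfl, one_mul]
      · intro y _ hy
        rw [hrow, if_neg (Ne.symm hy), zero_mul]
      · simp
    rw [expand, expand] at h4
    exact h4
  have hβp : β p = β q := hA.κβ p q hp
  have hltp : (α p : ℕ) < τ.w (β q) := hβp ▸ hA.αlt p
  have hltq : (α q : ℕ) < τ.w (β q) := hA.αlt q
  have ep : (α p : ℕ) = (α (pos ⟨(α p : ℕ), hltp⟩) : ℕ) := (hpos ⟨(α p : ℕ), hltp⟩).2.symm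
  have eq' : (α q : ℕ) = (α (pos ⟨(α q : ℕ), hltq⟩) : ℕ) := (hpos ⟨(α q : ℕ), hltq⟩).2.symm
  rw [hrefeq p (pos ⟨(α p : ℕ), hltp⟩) (hβp.trans (hβpos _).symm) ep,
    hrefeq q (pos ⟨(α q : ℕ), hltq⟩) (hβpos _).symm eq']
  exact hxx _ _

end Pool.Agent.helper98.FR
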