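import Pool.Agent.helper95.FR.Spec

/-! # Project FR, row JB2 (second prover): `Good ⊤ x` for the elements of `N₁` -/

set_option autoImplicit false

namespace Pool.Agent.helper95.FR

open scoped commutatorElement

universe u

theorem JB22_first (hBAS : BAS_stmt.{u}) (hIMC : IMC_stmt.{u}) (hPRJ : PRJ_stmt.{u})
    (hJM : JM_stmt.{u}) (hJB1 : JB1_stmt.{u}) (G : Type u) [Group G] (N₁ N₂ : Subgroup G)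
    (hT : Two N₁ N₂) (x : G) (hx : x ∈ N₁) (y : G) (hy : y ∈ N₂) :
    ∃ y' ∈ NC (⊤ : Subgroup G) x, ∃ y'' : G,
      (∀ z ∈ NC (⊤ : Subgroup G) x, y'' * z = z * y'') ∧ y = y' * y'' := by
  have hn1 := hT.n1
  have hn2 := hT.n2
  have self : ∀ a : G, a ∈ NC (⊤ : Subgroup G) a := fun a => (hBAS G ⊤ a).1
  have conj : ∀ a g z : G, z ∈ NC (⊤ : Subgroup G) a → g * z * g⁻¹ ∈ NC (⊤ : Subgroup G) a :=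
    fun a g z hz => (hBAS G ⊤ a).2.2.1 g (Subgroup.mem_top g) z hz
  have sub : ∀ a b : G, b ∈ NC (⊤ : Subgroup G) a → NC (⊤ : Subgroup G) b ≤ NC (⊤ : Subgroup G) a :=
    fun a b hb => (hBAS G ⊤ a).2.2.2.2.1 b hb
  have ppiff : ∀ a v : G, PP (⊤ : Subgroup G) a v ↔ ∀ z ∈ NC (⊤ : Subgroup G) a, v * z = z * v :=
    fun a v => (hBAS G ⊤ a).2.2.2.1 v
  have comm : ∀ a b c : G, b ∈ NC (⊤ : Subgroup G) a → ⁅b, c⁆ ∈ NC (⊤ : Subgroup G) a := by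
    intro a b c hb
    rw [commutatorElement_def, show b * c * b⁻¹ * c⁻¹ = b * (c * b⁻¹ * c⁻¹) by group]
    exact mul_mem hb (conj a c b⁻¹ (inv_mem hb))
  have comm1 : ∀ a c : G, a ∈ N₁ → ⁅a, c⁆ ∈ N₁ := by
    intro a c ha
    rw [commutatorElement_def, show a * c * a⁻¹ * c⁻¹ = a * (c * a⁻¹ * c⁻¹) by group]
    exact mul_mem ha (hn1.conj_mem a⁻¹ (inv_mem ha) c)
  have comm2 : ∀ a c : G, c ∈ N₂ → ⁅a, c⁆ ∈ N₂ := by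
    intro a c hc
    rw [commutatorElement_def]
    exact mul_mem (hn2.conj_mem c hc a) (inv_mem hc)
  -- A2 in `N₁`
  obtain ⟨g, hg, hW⟩ := hT.k1.A2 x hx
  obtain ⟨b, hb⟩ : ∃ b, b = g * x * g⁻¹ := ⟨_, rfl⟩
  rw [← hb] at hW
  have hbN : b ∈ N₁ := by rw [hb]; exact hn1.conj_mem x hx g
  have hbA : b ∈ NC (⊤ : Subgroup G) x := by rw [hb]; exact conj x g x (self x)
  have hxw : x ∈ NC (⊤ : Subgroup G) ⁅x, b⁆ :=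
    (hBAS G N₁ ⁅x, b⁆).2.2.2.2.2.1 ⊤ le_top ((hBAS G N₁ ⁅x, b⁆).2.2.2.2.2.2 x hW)
  -- the first splitting
  have hc1A : ⁅x, y⁆ ∈ NC (⊤ : Subgroup G) x := comm x x y (self x)
  have hc1N1 := comm1 x y hx
  have hc1N2 := comm2 x y hy
  obtain ⟨π₁, ρ₁, p1, p2, p3, p4⟩ := hPRJ G ⁅x, y⁆ (hJM G N₁ N₂ hT ⁅x, y⁆ hc1N1 hc1N2)
  have hC1N1 : NC (⊤ : Subgroup G) ⁅x, y⁆ ≤ N₁ := (hIMC G ⁅x, y⁆).2.1 N₁ hn1 hc1N1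
  have hC1N2 : NC (⊤ : Subgroup G) ⁅x, y⁆ ≤ N₂ := (hIMC G ⁅x, y⁆).2.1 N₂ hn2 hc1N2
  have eρ1 : ∀ a, ρ₁ a = (π₁ a)⁻¹ * a := by
    intro a
    rw [eq_inv_mul_iff_mul_eq]
    exact (p1 a).symm
  have h1 : ⁅ρ₁ x, ρ₁ y⁆ = 1 := by
    rw [← map_commutatorElement]
    exact (p4 _ (self _)).2
  have hx1 : ρ₁ x ∈ N₁ := by rw [eρ1]; exact mul_mem (inv_mem (hC1N1 (p2 x))) hx
  have hb1 : ρ₁ b ∈ N₁ := by rw [eρ1]; exact mul_mem (inv_mem (hC1N1 (p2 b))) hbN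
  have hy1 : ρ₁ y ∈ N₂ := by rw [eρ1]; exact mul_mem (inv_mem (hC1N2 (p2 y))) hy
  have hb1A : ρ₁ b ∈ NC (⊤ : Subgroup G) x := by
    rw [eρ1]; exact mul_mem (inv_mem (sub x _ hc1A (p2 b))) hbA
  -- the second splitting
  have hc2A : ⁅ρ₁ b, ρ₁ y⁆ ∈ NC (⊤ : Subgroup G) x := comm x _ _ hb1A
  have hc2N1 := comm1 (ρ₁ b) (ρ₁ y) hb1
  have hc2N2 := comm2 (ρ₁ b) (ρ₁ y) hy1
  have hc2c : ∀ z ∈ NC (⊤ : Subgroup G) ⁅x, y⁆, ⁅ρ₁ b, ρ₁ y⁆ * z = z * ⁅ρ₁ b, ρ₁ y⁆ := by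
    intro z hz
    rw [← map_commutatorElement]
    exact p3 _ z hz
  obtain ⟨π₂, ρ₂, q1, q2, q3, q4⟩ := hPRJ G ⁅ρ₁ b, ρ₁ y⁆ (hJM G N₁ N₂ hT _ hc2N1 hc2N2)
  have hC2N1 : NC (⊤ : Subgroup G) ⁅ρ₁ b, ρ₁ y⁆ ≤ N₁ := (hIMC G _).2.1 N₁ hn1 hc2N1
  have hC2N2 : NC (⊤ : Subgroup G) ⁅ρ₁ b, ρ₁ y⁆ ≤ N₂ := (hIMC G _).2.1 N₂ hn2 hc2N2
  have eρ2 : ∀ a, ρ₂ a = (π₂ a)⁻¹ * a := by
    intro a
    rw [eq_inv_mul_iff_mul_eq]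
    exact (q1 a).symm
  have h2 : ⁅ρ₂ (ρ₁ x), ρ₂ (ρ₁ y)⁆ = 1 := by
    rw [← map_commutatorElement, h1, map_one]
  have h3 : ⁅ρ₂ (ρ₁ b), ρ₂ (ρ₁ y)⁆ = 1 := by
    rw [← map_commutatorElement]
    exact (q4 _ (self _)).2
  have hx2 : ρ₂ (ρ₁ x) ∈ N₁ := by rw [eρ2]; exact mul_mem (inv_mem (hC2N1 (q2 _))) hx1
  have hb2 : ρ₂ (ρ₁ b) ∈ N₁ := by rw [eρ2]; exact mul_mem (inv_mem (hC2N1 (q2 _))) hb1
  have hy2 : ρ₂ (ρ₁ y) ∈ N₂ := by rw [eρ2]; exact mul_mem (inv_mem (hC2N2 (q2 _))) hy1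
  have hJ := hJB1 G N₁ N₂ hT (ρ₂ (ρ₁ x)) hx2 (ρ₂ (ρ₁ b)) hb2 (ρ₂ (ρ₁ y)) hy2
    (commutatorElement_eq_one_iff_mul_comm.1 h2) (commutatorElement_eq_one_iff_mul_comm.1 h3)
  have hx2w : ρ₂ (ρ₁ x) ∈ NC (⊤ : Subgroup G) ⁅ρ₂ (ρ₁ x), ρ₂ (ρ₁ b)⁆ := by
    have := (hIMC G ⁅x, b⁆).1 (ρ₂.comp ρ₁) x hxw
    rw [map_commutatorElement] at this
    exact this
  -- `y₂` commutes with everything
  have cX : ∀ z ∈ NC (⊤ : Subgroup G) (ρ₂ (ρ₁ x)), ρ₂ (ρ₁ y) * z = z * ρ₂ (ρ₁ y) :=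
    fun z hz => (hJ z (sub _ _ hx2w hz)).symm
  have cC2 : ∀ z ∈ NC (⊤ : Subgroup G) ⁅ρ₁ b, ρ₁ y⁆, ρ₂ (ρ₁ y) * z = z * ρ₂ (ρ₁ y) := q3 (ρ₁ y)
  have cC1 : ∀ z ∈ NC (⊤ : Subgroup G) ⁅x, y⁆, ρ₂ (ρ₁ y) * z = z * ρ₂ (ρ₁ y) := by
    intro z hz
    have e1 := (hIMC G ⁅x, y⁆).2.2 ⁅ρ₁ b, ρ₁ y⁆ hc2c (π₂ (ρ₁ y)) (q2 _) z hz
    have e2 := p3 y z hz
    rw [eρ2 (ρ₁ y)]
    have e3 : (π₂ (ρ₁ y))⁻¹ * z = z * (π₂ (ρ₁ y))⁻¹ := by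
      rw [inv_mul_eq_iff_eq_mul, ← mul_assoc, e1, mul_assoc, mul_inv_cancel, mul_one]
    rw [mul_assoc, e2, ← mul_assoc, e3, mul_assoc]
  refine ⟨π₁ y * π₂ (ρ₁ y), mul_mem (sub x _ hc1A (p2 y)) (sub x _ hc2A (q2 _)), ρ₂ (ρ₁ y), ?_, ?_⟩
  · rw [← ppiff]
    intro g _
    have ex : g * x * g⁻¹ = (g * π₁ x * g⁻¹) * ((g * π₂ (ρ₁ x) * g⁻¹) * (g * ρ₂ (ρ₁ x) * g⁻¹)) := by
      have e4 : x = π₁ x * (π₂ (ρ₁ x) * ρ₂ (ρ₁ x)) := by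
        rw [← q1 (ρ₁ x)]
        exact p1 x
      calc g * x * g⁻¹ = g * (π₁ x * (π₂ (ρ₁ x) * ρ₂ (ρ₁ x))) * g⁻¹ := by rw [← e4]
        _ = _ := by group
    have f1 := cC1 _ (conj _ g _ (p2 x))
    have f2 := cC2 _ (conj _ g _ (q2 (ρ₁ x)))
    have f3 := cX _ (conj _ g _ (self (ρ₂ (ρ₁ x))))
    rw [ex]
    have g1 : Commute (ρ₂ (ρ₁ y)) (g * π₁ x * g⁻¹) := f1
    have g2 : Commute (ρ₂ (ρ₁ y)) (g * π₂ (ρ₁ x) * g⁻¹) := f2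
    have g3 : Commute (ρ₂ (ρ₁ y)) (g * ρ₂ (ρ₁ x) * g⁻¹) := f3
    exact g1.mul_right (g2.mul_right g3)
  · rw [mul_assoc, ← q1 (ρ₁ y)]
    exact p1 y

theorem JB2 (hBAS : BAS_stmt.{u}) (hKSL : KSL_stmt.{u}) (hIMC : IMC_stmt.{u}) (hPRJ : PRJ_stmt.{u}) (hJAT : JAT_stmt.{u}) (hJM : JM_stmt.{u}) (hJB1 : JB1_stmt.{u}) : JB2_stmt.{u} := by
  intro G _ N₁ N₂ hT x hx
  have hA : NC (⊤ : Subgroup G) x = NC N₁ x := hJAT G N₁ N₂ hT x hx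
  obtain ⟨hG1, hG2⟩ := (hKSL G N₁ hT.k1 x hx).1
  refine ⟨?_, ?_⟩
  · intro g _
    have hn1 := hT.n1
    have hg : g ∈ N₁ ⊔ N₂ := by rw [hT.top]; exact Subgroup.mem_top g
    obtain ⟨a, ha, y, hy, hay⟩ := Subgroup.mem_sup_of_normal_left.1 hg
    obtain ⟨a', ha', a'', -, ha2, ha3⟩ := hG1 a ha
    obtain ⟨y', hy', y'', hy2, hy3⟩ := JB22_first hBAS hIMC hPRJ hJM hJB1 G N₁ N₂ hT x hx y hy
    rw [← hA] at ha' ha2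
    refine ⟨a' * y', mul_mem ha' hy', a'' * y'', Subgroup.mem_top _, ?_, ?_⟩
    · intro z hz
      have g1 : Commute a'' z := ha2 z hz
      have g2 : Commute y'' z := hy2 z hz
      exact g1.mul_left g2
    · have g1 : a'' * y' = y' * a'' := ha2 y' hy'
      rw [← hay, ha3, hy3]
      calc a' * a'' * (y' * y'') = a' * (a'' * y') * y'' := by group
        _ = a' * (y' * a'') * y'' := by rw [g1]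
        _ = a' * y' * (a'' * y'') := by group
  · rw [hA]
    exact hG2

end Pool.Agent.helper95.FR
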